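import Mathlib

set_option autoImplicit false

namespace Pool.Agent.Results.MP_521650_an.AllPoints

open Set Filter Topology

/-- `φ_a = φ_{a_1} ∘ ⋯ ∘ φ_{a_n}` for a word `a`. -/
def word {l : ℕ} (φ : Fin l → ℝ → ℝ) (a : List (Fin l)) : ℝ → ℝ :=
  a.foldr (fun i g => φ i ∘ g) id

/-- `W_s(z)`: the points `x` with `|x - φ_a(z)| ≤ Diam(φ_a(X))^s` for infinitely many words. -/
def W {l : ℕ} (φ : Fin l → ℝ → ℝ) (X : Set ℝ) (s z : ℝ) : Set ℝ :=
  {x | {a : List (Fin l) | |x - word φ a z| ≤ Metric.diam (word φ a '' X) ^ s}.Infinite}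

/-- right end point -/
noncomputable def R : ℝ := 2 + 2 * √2

/-- the five maps -/
noncomputable def φ : Fin 5 → ℝ → ℝ :=
  ![fun x => x / 2, fun x => x / 2 + 1, fun x => x / 2 + √2, fun x => x / 2 + (1 + √2),
    fun x => R - x / 2]

theorem s2_bounds : 7 / 5 < √2 ∧ √2 < 3 / 2 :=
  ⟨Real.lt_sqrt_of_sq_lt (by norm_num), (Real.sqrt_lt' (by norm_num)).2 (by norm_num)⟩

theorem φ_dist (i : Fin 5) (x y : ℝ) : |φ i x - φ i y| = |x - y| / 2 := by
  have h : ∀ u : ℝ, u = (x - y) / 2 ∨ u = -((x - y) / 2) → |u| = |x - y| / 2 := by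
    rintro u (rfl | rfl)
    · rw [abs_div, abs_two]
    · rw [abs_neg, abs_div, abs_two]
  apply h
  fin_cases i <;> simp [φ] <;> first | (left; ring1) | (right; ring1)

theorem φ_maps (i : Fin 5) : MapsTo (φ i) (Icc 0 R) (Icc 0 R) := by
  have := s2_bounds
  intro x hx
  have h1 := hx.1
  have h2 := hx.2
  fin_cases i <;> simp only [φ, R] at * <;> constructor <;> simp <;> linarith

theorem word_cons (i : Fin 5) (a : List (Fin 5)) (x : ℝ) :
    word φ (i :: a) x = φ i (word φ a x) := rfl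

theorem word_dist (a : List (Fin 5)) (x y : ℝ) :
    |word φ a x - word φ a y| = |x - y| / 2 ^ a.length := by
  induction a with
  | nil => simp [word]
  | cons i a ih => rw [word_cons, word_cons, φ_dist, ih, List.length_cons, pow_succ, div_div]

theorem word_maps (a : List (Fin 5)) : MapsTo (word φ a) (Icc 0 R) (Icc 0 R) := by
  induction a with
  | nil => exact fun x hx => hx
  | cons i a ih => exact fun x hx => φ_maps i (ih hx)

theorem R_pos : 2 < R := by unfold R; linarith [s2_bounds.1]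

theorem word_diam (a : List (Fin 5)) : Metric.diam (word φ a '' Icc 0 R) = R / 2 ^ a.length := by
  have hR := R_pos
  apply le_antisymm
  · refine Metric.diam_le_of_forall_dist_le (by positivity) ?_
    rintro _ ⟨x, hx, rfl⟩ _ ⟨y, hy, rfl⟩
    rw [Real.dist_eq, word_dist]
    refine div_le_div_of_nonneg_right (abs_le.2 ⟨?_, ?_⟩) (by positivity) <;>
      linarith [hx.1, hx.2, hy.1, hy.2]
  · have := Metric.dist_le_diam_of_mem
      ((Metric.isBounded_Icc (0 : ℝ) R).subset (word_maps a).image_subset)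
      (mem_image_of_mem (word φ a) (right_mem_Icc.2 (by linarith)))
      (mem_image_of_mem (word φ a) (left_mem_Icc.2 (by linarith)))
    rwa [Real.dist_eq, word_dist, sub_zero, abs_of_pos (by linarith)] at this

theorem exists_word (n : ℕ) : ∀ j k : ℕ, j < 2 ^ n → k < 2 ^ n →
    ∃ a : List (Fin 5), a.length = n ∧ word φ a 0 = 2 * (j + k * √2) / 2 ^ n := by
  induction n with
  | zero =>
    intro j k hj hk
    obtain rfl : j = 0 := by omega
    obtain rfl : k = 0 := by omega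
    exact ⟨[], rfl, by simp [word]⟩
  | succ n ih =>
    intro j k hj hk
    have key : ∀ j : ℕ, j < 2 ^ (n + 1) → ∃ j' : ℕ, j' < 2 ^ n ∧ (j = j' ∨ j = j' + 2 ^ n) := by
      intro j hj
      rw [pow_succ] at hj
      by_cases h : j < 2 ^ n
      · exact ⟨j, h, Or.inl rfl⟩
      · exact ⟨j - 2 ^ n, by omega, Or.inr (by omega)⟩
    obtain ⟨j', hj', e1⟩ := key j hj
    obtain ⟨k', hk', e2⟩ := key k hk
    obtain ⟨a, ha, h⟩ := ih j' k' hj' hk'
    rcases e1 with rfl | rfl <;> rcases e2 with rfl | rfl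
    · exact ⟨0 :: a, by simp [ha], by rw [word_cons, h]; simp [φ]; field_simp; ring⟩
    · exact ⟨2 :: a, by simp [ha], by rw [word_cons, h]; simp [φ]; field_simp; ring⟩
    · exact ⟨1 :: a, by simp [ha], by rw [word_cons, h]; simp [φ]; field_simp; ring⟩
    · exact ⟨3 :: a, by simp [ha], by rw [word_cons, h]; simp [φ]; field_simp; ring⟩

theorem pell (m : ℕ) : ∃ P Q : ℕ, (3 - 2 * √2) ^ m = P - Q * √2 ∧ P ≤ 8 ^ m ∧ Q ≤ 8 ^ m := by
  induction m with
  | zero => exact ⟨1, 0, by simp, by simp, by simp⟩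
  | succ m ih =>
    obtain ⟨P, Q, h, h1, h2⟩ := ih
    refine ⟨3 * P + 4 * Q, 2 * P + 3 * Q, ?_, by rw [pow_succ]; omega, by rw [pow_succ]; omega⟩
    have h3 : √2 * √2 = (2 : ℝ) := Real.mul_self_sqrt (by norm_num)
    rw [pow_succ, h]
    push_cast
    linear_combination (2 * Q) * h3

theorem approx {θ : ℝ} (h0 : 0 < θ) (h1 : θ < 1) : ∀ᶠ m : ℕ in atTop, ∃ j k : ℕ,
    j < 2 ^ (8 * m) ∧ k < 2 ^ (8 * m) ∧
      |θ * (1 + √2) * 2 ^ (8 * m) - (j + k * √2)| ≤ 1 / 4 ^ m := by
  have hs := s2_bounds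
  have ht : Tendsto (fun m : ℕ => (4 : ℝ) ^ m) atTop atTop :=
    tendsto_pow_atTop_atTop_of_one_lt (by norm_num)
  filter_upwards [(ht.const_mul_atTop h0).eventually_ge_atTop 3,
    (ht.const_mul_atTop (sub_pos.2 h1)).eventually_ge_atTop 3] with m a1 a2
  obtain ⟨P, Q, hη, hP, hQ⟩ := pell m
  set η : ℝ := (3 - 2 * √2) ^ m with hηdef
  have e1 : 1 / 8 ^ m ≤ η := by
    rw [hηdef, ← one_div_pow]
    have : √2 < 23 / 16 := (Real.sqrt_lt' (by norm_num)).2 (by norm_num)
    exact pow_le_pow_left₀ (by norm_num) (by linarith) m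
  have e2 : η ≤ 1 / 4 ^ m := by
    rw [hηdef, ← one_div_pow]
    exact pow_le_pow_left₀ (by linarith) (by linarith) m
  have e0 : 0 < η := lt_of_lt_of_le (by positivity) e1
  set N : ℝ := 2 ^ (8 * m) with hN
  set G : ℝ := 8 ^ m * 8 ^ m with hG
  have hG1 : 1 ≤ G := one_le_mul_of_one_le_of_one_le (one_le_pow₀ (by norm_num))
    (one_le_pow₀ (by norm_num))
  have hNG : N = 4 ^ m * G := by
    rw [hN, hG, pow_mul, ← mul_pow, ← mul_pow]; norm_num
  have b1 : 3 * G ≤ θ * N := by rw [hNG]; nlinarith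
  have b2 : 3 * G ≤ (1 - θ) * N := by rw [hNG]; nlinarith
  set k₀ := ⌊θ * N⌋₊ with hk₀
  have k1 : (k₀ : ℝ) ≤ θ * N := Nat.floor_le (by linarith)
  have k2 : θ * N < k₀ + 1 := Nat.lt_floor_add_one _
  set y := θ * (1 + √2) * N - k₀ * √2 with hy
  have y1 : θ * N ≤ y := by rw [hy]; nlinarith
  have y2 : y ≤ θ * N + 3 / 2 := by rw [hy]; nlinarith
  set j₀ := ⌊y⌋₊ with hj₀
  have j1 : (j₀ : ℝ) ≤ y := Nat.floor_le (by linarith)
  have j2 : y < j₀ + 1 := Nat.lt_floor_add_one _
  set i := ⌊(y - j₀) / η⌋₊ with hi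
  have i1 : (i : ℝ) * η ≤ y - j₀ := by
    rw [← le_div_iff₀ e0]; exact Nat.floor_le (div_nonneg (by linarith) e0.le)
  have i2 : y - j₀ < (i + 1) * η := by
    rw [← div_lt_iff₀ e0]; exact Nat.lt_floor_add_one _
  have i3 : (i : ℝ) ≤ 8 ^ m := by
    have h8 : (0 : ℝ) < 8 ^ m := by positivity
    have : (i : ℝ) * (1 / 8 ^ m) ≤ 1 :=
      (mul_le_mul_of_nonneg_left e1 (Nat.cast_nonneg i)).trans (by linarith)
    rwa [mul_one_div, div_le_one h8] at this
  have hP' : (P : ℝ) ≤ 8 ^ m := by exact_mod_cast hP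
  have hQ' : (Q : ℝ) ≤ 8 ^ m := by exact_mod_cast hQ
  have iP : (i : ℝ) * P ≤ G := mul_le_mul i3 hP' (Nat.cast_nonneg _) (by positivity)
  have iQ : (i : ℝ) * Q ≤ G := mul_le_mul i3 hQ' (Nat.cast_nonneg _) (by positivity)
  have hle : i * Q ≤ k₀ := by
    have : ((i * Q : ℕ) : ℝ) ≤ k₀ := by push_cast; linarith
    exact_mod_cast this
  refine ⟨j₀ + i * P, k₀ - i * Q, ?_, ?_, ?_⟩
  · have : ((j₀ + i * P : ℕ) : ℝ) < ((2 ^ (8 * m) : ℕ) : ℝ) := by push_cast; linarith
    exact_mod_cast this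
  · have : (k₀ : ℝ) < ((2 ^ (8 * m) : ℕ) : ℝ) := by push_cast; linarith
    have : k₀ < 2 ^ (8 * m) := by exact_mod_cast this
    omega
  · rw [Nat.cast_sub hle]
    push_cast
    have : θ * (1 + √2) * N - (j₀ + i * P + (k₀ - i * Q) * √2) = y - j₀ - i * η := by
      rw [hy, hη]; ring
    rw [this, abs_le]
    constructor <;> nlinarith

theorem infinite_of_length {S : Set (List (Fin 5))} (h : ∀ N, ∃ a ∈ S, N ≤ a.length) :
    S.Infinite := by
  intro hS
  obtain ⟨N, hN⟩ := (hS.image List.length).bddAbove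
  obtain ⟨a, ha, h1⟩ := h (N + 1)
  have := hN (mem_image_of_mem _ ha)
  omega

theorem word_replicate (n : ℕ) : word φ (List.replicate n 0) 0 = 0 := by
  induction n with
  | zero => rfl
  | succ n ih => rw [List.replicate_succ, word_cons, ih]; simp [φ]

theorem result : ∃ (l : ℕ) (φ : Fin l → ℝ → ℝ) (X : Set ℝ) (z s : ℝ), 2 ≤ l ∧
    (∀ i, Function.Injective (φ i) ∧ ∃ K, ContractingWith K (φ i)) ∧
    IsCompact X ∧ X.Nontrivial ∧ X = ⋃ i, φ i '' X ∧ z ∈ X ∧ 1 < s ∧ W φ X s z = X := by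
  have hR := R_pos
  have hs := s2_bounds
  refine ⟨5, φ, Icc 0 R, 0, 5 / 4, by norm_num, fun i => ⟨fun x y h => ?_, 1 / 2, by norm_num,
    LipschitzWith.of_dist_le_mul fun x y => ?_⟩, isCompact_Icc,
    ⟨0, left_mem_Icc.2 (by linarith), R, right_mem_Icc.2 (by linarith), by linarith⟩, ?_,
    left_mem_Icc.2 (by linarith), by norm_num, ?_⟩
  · have := φ_dist i x y
    rw [h, sub_self, abs_zero] at this
    exact sub_eq_zero.1 (abs_eq_zero.1 (by linarith))
  · rw [Real.dist_eq, Real.dist_eq, φ_dist]; push_cast; linarith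
  · refine Subset.antisymm (fun x hx => ?_) (iUnion_subset fun i => (φ_maps i).image_subset)
    rcases le_total x (R / 2) with h | h
    · exact mem_iUnion.2 ⟨0, 2 * x, ⟨by linarith [hx.1], by linarith⟩, by simp [φ]⟩
    · exact mem_iUnion.2 ⟨4, 2 * (R - x), ⟨by linarith [hx.2], by linarith⟩, by simp [φ]⟩
  · refine Subset.antisymm (fun x hx => ?_) fun x hx => ?_
    · refine isClosed_Icc.closure_subset (Metric.mem_closure_iff.2 fun ε hε => ?_)
      obtain ⟨N, hN⟩ := pow_unbounded_of_one_lt (R / min ε 1) (one_lt_two (α := ℝ))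
      obtain ⟨a, ha, hl⟩ := Set.Infinite.exists_notMem_finite hx (List.finite_length_le _ N)
      refine ⟨word φ a 0, word_maps a (left_mem_Icc.2 (by linarith)), ?_⟩
      have h1 : (2 : ℝ) ^ N ≤ 2 ^ a.length := pow_le_pow_right₀ one_le_two (le_of_not_ge hl)
      have h2 : R / 2 ^ a.length < min ε 1 := by
        rw [div_lt_iff₀ (by positivity), mul_comm, ← div_lt_iff₀ (by positivity)]
        linarith
      rw [mem_setOf_eq, word_diam] at ha
      refine lt_of_le_of_lt ha (lt_of_le_of_lt ?_ (h2.trans_le (min_le_left _ _)))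
      exact Real.rpow_le_self_of_le_one (by positivity) (h2.le.trans (min_le_right _ _))
        (by norm_num)
    · refine infinite_of_length fun N => ?_
      rcases hx.1.eq_or_lt with rfl | h0
      · exact ⟨List.replicate N 0, by
          rw [mem_setOf_eq, word_replicate, sub_self, abs_zero]; positivity, by simp⟩
      rcases hx.2.eq_or_lt with rfl | h1
      · refine ⟨4 :: List.replicate N 0, ?_, by simp⟩
        have : word φ (4 :: List.replicate N 0) 0 = R := by
          rw [word_cons, word_replicate]; simp [φ]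
        rw [mem_setOf_eq, this, sub_self, abs_zero]; positivity
      obtain ⟨m, ⟨j, k, hj, hk, h⟩, hm⟩ := ((approx (θ := x / R) (by positivity)
        ((div_lt_one (by linarith)).2 h1)).and (eventually_ge_atTop N)).exists
      obtain ⟨a, ha, hw⟩ := exists_word _ j k hj hk
      refine ⟨a, ?_, by omega⟩
      rw [mem_setOf_eq, word_diam, hw, ha]
      set M : ℝ := 2 ^ (8 * m) with hM
      have hM0 : 0 < M := by positivity
      have e1 : x - 2 * (j + k * √2) / M = 2 / M * (x / R * (1 + √2) * M - (j + k * √2)) := by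
        have : R = 2 * (1 + √2) := by unfold R; ring
        rw [this]
        field_simp
      have e2 : (1 / 4 ^ m : ℝ) ≤ (R / M) ^ (1 / 4 : ℝ) := by
        have h3 : (1 / 4 ^ m : ℝ) = ((1 / 4 ^ m : ℝ) ^ 4) ^ (((4 : ℕ) : ℝ)⁻¹) :=
          (Real.pow_rpow_inv_natCast (by positivity) (by norm_num)).symm
        rw [h3]
        have h4 : (((4 : ℕ) : ℝ)⁻¹) = 1 / 4 := by norm_num
        rw [h4]
        refine Real.rpow_le_rpow (by positivity) ?_ (by norm_num)
        have h5 : ((4 : ℝ) ^ m) ^ 4 = M := by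
          rw [hM, ← pow_mul, mul_comm m 4, pow_mul, pow_mul]; norm_num
        rw [one_div_pow, h5]
        exact div_le_div_of_nonneg_right (by linarith) hM0.le
      have e3 : (R / M) ^ (5 / 4 : ℝ) = R / M * (R / M) ^ (1 / 4 : ℝ) := by
        rw [show (5 / 4 : ℝ) = 1 + 1 / 4 by norm_num, Real.rpow_add (by positivity),
          Real.rpow_one]
      rw [e1, e3, abs_mul, abs_of_pos (by positivity)]
      exact mul_le_mul (div_le_div_of_nonneg_right hR.le hM0.le) (h.trans e2) (abs_nonneg _)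
        (by positivity)

end Pool.Agent.Results.MP_521650_an.AllPoints
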